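import Pool.Agent.N375.AV.D
import Pool.Agent.N375.AV.F
import Pool.Agent.T9h59.GA.Count

/-!
# The abc conjecture over the integers of `ℚ(√5)` for heights near the values of compositions of additive functions

Let `F = f_1 ∘ ⋯ ∘ f_k`, `f_i` dominated by the largest prime factor, for example additive functions with `f (q ^ j) ≤ C q ^ j`
that are injective at the large primes (the sum of the prime factors), the largest prime factor or Kempner's function. Let `G`
be a real sequence with steps at least a positive constant and growth at most `v ^ d`, `θ ≥ 0`, `20 d / 37 + θ < 1`. For every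
`κ` and all `m ≤ X` but `L X exp (- c (log X)^(1 / (k + 1)))`, ALL triples `a + b + c = 0`, `abc ≠ 0`, of integers of `ℚ(√5)` in
lowest terms whose height `H` satisfies `|H - G (F m)| ≤ F(m)^θ` have a radical larger than `κ H`. The values of `F` are of
smaller size than `m` and are taken with very large multiplicities, and so this does not follow from the number of the
exceptional triples.

Method: the starting theorem `ExceptionalSet` of this problem, and the functions `F` keep away from sets with a power saving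
(`N375/AV`, starting library).
-/

set_option autoImplicit false

namespace Pool.Agent.Results.MP_2a5a28_nt.AdditiveValues

open NumberField Finset
open Pool.Agent.Results.MP_2a5a28_nt.ExceptionalSet (Triple height rad)
open Pool.Agent.T9h59.GA (Exc count good_of)
open Pool.Agent.N733.TG (Expanding expanding_pow)
open Pool.Agent.N375.AV (PD comp pd_additive pd_largest pd_kempner)

/-- **The abc conjecture over `ℤ[(1 + √5) / 2]` for heights near the values of compositions of additive functions.** Let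
`F = f_1 ∘ ⋯ ∘ f_k`, `f_i` dominated by the largest prime factor. Let `G` have steps `≥ a > 0` and growth at most `v ^ d`,
`θ ≥ 0` and `20 d / 37 + θ < 1`. For every `κ` there are `c > 0` and `L` such that for all `m ≤ X` but
`L X exp (- c (log X)^(1 / (k + 1)))`, ALL triples `a + b + c = 0` in lowest terms with `abc ≠ 0` whose height `H` satisfies
`|H - G (F m)| ≤ F(m)^θ` have a radical larger than `κ H`. The additive functions with `f (q^j) ≤ C q^j` which are injective at
the large primes, the largest prime factor and Kempner's function are examples of such functions `f_i`, and `α v ^ d` with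
`α > 0`, `d ≥ 1` is an example of `G`. -/
theorem result :
    (∀ (K : Type) [Field K] [NumberField K], Module.finrank ℚ K = 2 → (∃ s : K, s ^ 2 = 5) →
      ∀ fs : List (ℕ → ℕ), (∀ f ∈ fs, PD f) → ∀ (G : ℕ → ℝ) (d θ κ : ℝ), Expanding G d → 0 ≤ θ →
      d * (20 / 37) + θ < 1 → ∃ c L : ℝ, 0 < c ∧ ∀ X : ℕ, 1 ≤ X →
      ({m : ℕ | 1 ≤ m ∧ m ≤ X ∧ ¬ ∀ t : 𝓞 K × 𝓞 K × 𝓞 K, Triple t →
        |height t - G (comp fs m)| ≤ (comp fs m : ℝ) ^ θ → κ * height t < rad t}.ncard : ℝ) ≤
        L * X * Real.exp (-(c * Real.log X ^ ((1 : ℝ) / (fs.length + 1))))) ∧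
    (∀ f : ℕ → ℕ, (∀ a b : ℕ, Nat.Coprime a b → f (a * b) = f a + f b) →
      (∃ C : ℕ, ∀ q j : ℕ, q.Prime → 1 ≤ j → f (q ^ j) ≤ C * q ^ j) →
      (∃ P : ℕ, ∀ p q : ℕ, p.Prime → q.Prime → P ≤ p → P ≤ q → f p = f q → p = q) → PD f) ∧
    (PD (fun n => n.primeFactors.sup id) ∧ PD (fun n => sInf {k : ℕ | n ∣ k.factorial})) ∧
    ∀ α d : ℝ, 0 < α → 1 ≤ d → Expanding (fun v => α * (v : ℝ) ^ d) d := by
  refine ⟨fun K _ _ hd h5 fs hfs G d θ κ hG hθ h1 => ?_, fun f h2 h3 h4 => pd_additive h2 h3 h4,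
    ⟨pd_largest, pd_kempner⟩, fun α d hα hd => expanding_pow hα hd⟩
  obtain ⟨c, L, hc, h2⟩ := Pool.Agent.N375.AV.windows (Exc K κ) (fun x => x) fs hfs hG (s := 20 / 37) (κ := θ)
    (by norm_num) hθ h1 (fun ε hε => count hd h5 κ ε hε)
  refine ⟨c, L, hc, fun X hX => le_trans ?_ (h2 X hX)⟩
  have hfin : {m : ℕ | 1 ≤ m ∧ m ≤ X ∧ ∃ x ∈ Exc K κ, |x - G (comp fs m)| ≤ (comp fs m : ℝ) ^ θ}.Finite :=
    (Set.finite_Icc 1 X).subset (fun m hm => ⟨hm.1, hm.2.1⟩)
  have hsub : {m : ℕ | 1 ≤ m ∧ m ≤ X ∧ ¬ ∀ t : 𝓞 K × 𝓞 K × 𝓞 K, Triple t →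
      |height t - G (comp fs m)| ≤ (comp fs m : ℝ) ^ θ → κ * height t < rad t} ⊆
      {m : ℕ | 1 ≤ m ∧ m ≤ X ∧ ∃ x ∈ Exc K κ, |x - G (comp fs m)| ≤ (comp fs m : ℝ) ^ θ} := by
    rintro m ⟨h3, h4, h5⟩
    push Not at h5
    obtain ⟨t, ht, h6, h7⟩ := h5
    exact ⟨h3, h4, height t, ⟨t, ht, rfl, h7⟩, h6⟩
  exact_mod_cast Set.ncard_le_ncard hsub hfin

end Pool.Agent.Results.MP_2a5a28_nt.AdditiveValues
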