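import Pool.Agent.N790.CM.C
import Pool.Agent.T9h59.GA.Count

/-!
# The abc conjecture over the integers of `ℚ(√5)` for heights near all multiples of Carmichael's function

For almost all `m` (all `m ≤ x` but `x / (log x)^U`) and EVERY multiple `w ≤ x^B` of Carmichael's function `λ(m)`, ALL triples
`a + b + c = 0`, `abc ≠ 0`, of integers of `ℚ(√5)` in lowest terms whose height `H` satisfies `|H - G w| ≤ w^θ` have a radical
larger than `κ H`, if `B (20 d / 37 + θ) < 1`. Here `G` has steps bounded below by a positive constant and growth at most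
`v^d`. More generally `w` is any common multiple of the values `f(p)`, `p` running through the large primes which divide `m`
exactly once, where `f` takes each positive value at boundedly many primes.

A single `m` has a power of `x` multiples of this kind, and a single `w ≤ x^B` can be a multiple of `λ(m)` for more than
`x^(1 - ε)` numbers `m ≤ x`. So this does not follow from the size of the exceptional set.

Method: the starting theorem `ExceptionalSet` of this problem, and the tool `N790/CM` (starting library).
-/

set_option autoImplicit false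

namespace Pool.Agent.Results.MP_2a5a28_nt.CarmichaelMultiples

open NumberField Finset
open Pool.Agent.Results.MP_2a5a28_nt.ExceptionalSet (Triple height rad)
open Pool.Agent.T9h59.GA (Exc count good_of)
open Pool.Agent.N733.TG (Expanding expanding_pow)
open Pool.Agent.N790.CM (FewTimes Carries keep_windows fewTimes_pred pred_dvd_carmichael)

/-- **The abc conjecture over `ℤ[(1 + √5) / 2]` for heights near the multiples of Carmichael's function.** Let `G` have steps
`≥ a > 0` and growth at most `v^d`, let `θ ≥ 0`, `B ≥ 1`, `B (20 d / 37 + θ) < 1`, and let `f` take each positive value at most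
`T` times at the primes. For all `κ`, `U` and all large `x`, for all `m ≤ x` but `x / (log x)^U`: for EVERY `w` with
`1 ≤ w ≤ x^B` and `f(p) ∣ w` for all primes `p > exp (√(log x))` which divide `m` exactly once, ALL triples `a + b + c = 0` in
lowest terms with `abc ≠ 0` whose height `H` satisfies `|H - G w| ≤ w^θ` have a radical larger than `κ H`. The function
`f(p) = p - 1` takes each value at most once, and every multiple of Carmichael's function `λ(m)` is divisible by `p - 1` for
all `p ∣ m`; and `α v^d` with `α > 0`, `d ≥ 1` is an example of `G`. -/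
theorem result :
    (∀ (K : Type) [Field K] [NumberField K], Module.finrank ℚ K = 2 → (∃ s : K, s ^ 2 = 5) →
      ∀ (G : ℕ → ℝ) (d : ℝ), Expanding G d → ∀ θ κ B : ℝ, 0 ≤ θ → 1 ≤ B → B * (d * (20 / 37) + θ) < 1 →
      ∀ (f : ℕ → ℕ) (T : ℕ), FewTimes f T → ∀ U : ℕ, ∃ N₀ : ℕ, ∀ N : ℕ, N₀ ≤ N →
      ({m : ℕ | 1 ≤ m ∧ m ≤ N ∧ ¬ ∀ w : ℕ, 1 ≤ w → (w : ℝ) ≤ (N : ℝ) ^ B →
          Carries f (Real.exp √(Real.log N)) m w →
          ∀ t : 𝓞 K × 𝓞 K × 𝓞 K, Triple t → |height t - G w| ≤ (w : ℝ) ^ θ → κ * height t < rad t}.ncard : ℝ) ≤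
        N / Real.log N ^ U) ∧
    (FewTimes (fun p => p - 1) 1 ∧
      ∀ (y : ℝ) (m w : ℕ), ArithmeticFunction.carmichael m ∣ w → Carries (fun p => p - 1) y m w) ∧
    ∀ α d : ℝ, 0 < α → 1 ≤ d → Expanding (fun v => α * (v : ℝ) ^ d) d := by
  refine ⟨fun K _ _ hd h5 G d hG θ κ B hθ hB h1 f T hf U => ?_,
    ⟨fewTimes_pred, fun y m w h p hp _ hpm _ => (pred_dvd_carmichael hp hpm).trans h⟩,
    fun α d hα hd => expanding_pow hα hd⟩
  refine (keep_windows (Exc K κ) (fun x => x) hG (s := 20 / 37) (by norm_num) hθ hB h1
    (fun ε hε => count hd h5 κ ε hε)).mono ?_ f T hf U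
  intro w _ hw t ht hnear
  exact good_of ht (fun h4 => hw (height t) h4 hnear)

end Pool.Agent.Results.MP_2a5a28_nt.CarmichaelMultiples
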