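import Pool.Agent.T9h59.OR.B
import Pool.Agent.T9h59.GA.Count

/-!
# The abc conjecture over the integers of `ℚ(√5)` for heights near the orders of the subgroups of `F_p^*`

Let `G` have steps bounded below by a positive constant and growth at most `v^d`, `θ ≥ 0`, `σ = 20 d / 37 + θ < 1` and
`0 ≤ c < 1`. For every `κ`, for all primes `p ≤ X` but `O(X^(1 - ρ))`, `ρ < (1 - c) (1 - σ) / 2`: for ALL subgroups of `F_p^*`
which contain an integer `a`, `2 ≤ a ≤ X^c`, for example those generated by such an integer, with the order `w`, ALL triples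
`a + b + c = 0`, `abc ≠ 0`, of integers of `ℚ(√5)` in lowest terms whose height `H` satisfies `|H - G w| ≤ w^θ` have a radical
larger than `κ H`. The number of the `w` which occur is not restricted, one prime has many subgroups of this kind, and one `w` can occur for
many primes; the proof counts the primes with `p ∣ a ^ w - 1` for small `w`, and the cofactors `(p - 1) / w` for large `w`
(`T9h59/OR`).

The starting theorem `ExceptionalSet` of this problem bounds the number of the exceptional triples.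
-/

set_option autoImplicit false

namespace Pool.Agent.Results.MP_2a5a28_nt.SubgroupOrders

open NumberField Finset
open Pool.Agent.Results.MP_2a5a28_nt.ExceptionalSet (Triple height rad)
open Pool.Agent.T9h59.GA (Exc count good_of)
open Pool.Agent.N733.TG (Expanding expanding_pow)
open Pool.Agent.T9h59.OR (SubOrder sub_windows subOrder_orderOf)

/-- **The abc conjecture over `ℤ[(1 + √5) / 2]` for heights near the orders of subgroups of `F_p^*`.** Let `G` have steps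
`≥ a > 0` and growth at most `v^d`, let `θ ≥ 0`, `σ = 20 d / 37 + θ < 1`, `0 ≤ c < 1` and `ρ < (1 - c) (1 - σ) / 2`. For every
`κ`, for all primes `p ≤ X` but `C X^(1 - ρ)`: for the order `w` of EVERY subgroup of `F_p^*` which contains an integer `a`,
`2 ≤ a ≤ X^c` (`SubOrder (X ^ c) p w`), ALL triples `a + b + c = 0` in lowest terms with `abc ≠ 0` whose height `H` satisfies
`|H - G w| ≤ w^θ` have a radical larger than `κ H`. The order of `a` modulo `p` is such a number `w`, and `α v^d` with `α > 0`,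
`d ≥ 1` is an example of `G`. -/
theorem result :
    (∀ (K : Type) [Field K] [NumberField K], Module.finrank ℚ K = 2 → (∃ s : K, s ^ 2 = 5) →
      ∀ (G : ℕ → ℝ) (d θ κ : ℝ), Expanding G d → 0 ≤ θ → d * (20 / 37) + θ < 1 →
      ∀ c ρ : ℝ, 0 ≤ c → c < 1 → ρ < (1 - c) * (1 - (d * (20 / 37) + θ)) / 2 → ∃ C : ℝ, ∀ X : ℕ, 1 ≤ X →
      ({p : ℕ | p.Prime ∧ p ≤ X ∧ ¬ ∀ w, SubOrder ((X : ℝ) ^ c) p w → ∀ t : 𝓞 K × 𝓞 K × 𝓞 K, Triple t →
        |height t - G w| ≤ (w : ℝ) ^ θ → κ * height t < rad t}.ncard : ℝ) ≤ C * (X : ℝ) ^ (1 - ρ)) ∧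
    (∀ (B : ℝ) (p a : ℕ), p.Prime → 2 ≤ a → (a : ℝ) ≤ B → ¬ p ∣ a → SubOrder B p (orderOf (a : ZMod p))) ∧
    ∀ α d : ℝ, 0 < α → 1 ≤ d → Expanding (fun v => α * (v : ℝ) ^ d) d := by
  refine ⟨fun K _ _ hd h5 G d θ κ hG hθ h1 c ρ hc0 hc1 hρ => ?_, fun B p a hp ha haB hpa => subOrder_orderOf hp ha haB hpa,
    fun α d hα hd => expanding_pow hα hd⟩
  obtain ⟨C, hC⟩ := sub_windows (Exc K κ) (fun x => x) hG (s := 20 / 37) (by norm_num) hθ h1
    (fun ε hε => count hd h5 κ ε hε) hc0 hc1 hρ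
  refine ⟨C, fun X hX => le_trans ?_ (hC X hX)⟩
  have hfin : {p : ℕ | p.Prime ∧ p ≤ X ∧ ∃ n, SubOrder ((X : ℝ) ^ c) p n ∧
      ∃ x ∈ Exc K κ, |x - G n| ≤ (n : ℝ) ^ θ}.Finite :=
    (Set.finite_Icc 0 X).subset (fun p hp => ⟨Nat.zero_le _, hp.2.1⟩)
  have hsub : {p : ℕ | p.Prime ∧ p ≤ X ∧ ¬ ∀ w, SubOrder ((X : ℝ) ^ c) p w → ∀ t : 𝓞 K × 𝓞 K × 𝓞 K, Triple t →
        |height t - G w| ≤ (w : ℝ) ^ θ → κ * height t < rad t} ⊆ {p : ℕ | p.Prime ∧ p ≤ X ∧
      ∃ n, SubOrder ((X : ℝ) ^ c) p n ∧ ∃ x ∈ Exc K κ, |x - G n| ≤ (n : ℝ) ^ θ} := by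
    rintro p ⟨hp, hpX, hn⟩
    push Not at hn
    obtain ⟨w, hw, t, ht, h2, h3⟩ := hn
    exact ⟨hp, hpX, w, hw, height t, ⟨t, ht, rfl, h3⟩, h2⟩
  exact_mod_cast Set.ncard_le_ncard hsub hfin

end Pool.Agent.Results.MP_2a5a28_nt.SubgroupOrders
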