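import Pool.Agent.N760.IT.C
import Pool.Agent.T9h59.GA.Count

/-!
# The abc conjecture over the integers of `ℚ(√5)` for heights along the orbits of Euler's function

Let `f` be a positive multiplicative function of at most polynomial growth which is injective and at most `M p` at the large
primes `p` (for instance the identity, Euler's function or the sum of the divisors). Let `G` be a real sequence with steps
bounded below by a positive constant and growth at most `v^d`, and let `θ ≥ 0`, `20 d / 37 + θ < 1`. For every `κ` there is
`L(m)` tending to infinity such that for almost all `m`, for all `j ≤ L(m)`, with `v = f(φ_j(m))`, `φ_j` the `j`-th iterate of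
Euler's function, ALL triples `a + b + c = 0`, `abc ≠ 0`, of integers of `ℚ(√5)` in lowest terms whose height `H` satisfies
`|H - G v| ≤ v^θ` have a radical larger than `κ H`. The values of the iterates form a thin set and are taken with very large
multiplicities, so this does not follow from the number of the exceptional triples.

Method: the starting theorem `ExceptionalSet` of this problem, and the iteration method of `N760/IT` (starting library).
-/

set_option autoImplicit false

namespace Pool.Agent.Results.MP_2a5a28_nt.TotientOrbits

open NumberField Finset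
open Pool.Agent.Results.MP_2a5a28_nt.ExceptionalSet (Triple height rad)
open Pool.Agent.T9h59.GA (Exc count good_of)
open Filter
open Pool.Agent.N733.TG (LM Expanding lm_totient lm_sigma expanding_pow)
open Pool.Agent.N760.IT (orb lm_id)
open Pool.Agent.N826.IT.Orb (AlmostAll almostAll_mono)

/-- **The abc conjecture over `ℤ[(1 + √5) / 2]` for heights along the orbits of Euler's function.** Let `f` be multiplicative
and positive, of at most polynomial growth, with `f p ≤ M p` at the large primes, and injective there. Let `G` have steps
`≥ a > 0` and growth at most `v ^ d`, and let `θ ≥ 0`, `20 d / 37 + θ < 1`. For every `κ` there is `L(m)` tending to infinity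
such that for almost all `m`, for all `j ≤ L(m)`, with `v = f(φ_j(m))` (`orb f j m`), ALL triples `a + b + c = 0` in lowest
terms with `abc ≠ 0` whose height `H` satisfies `|H - G v| ≤ v ^ θ` have a radical larger than `κ H`. The identity, Euler's
function and the sum of the divisors are examples of such functions `f`, and `α v ^ d` with `α > 0`, `d ≥ 1` is an example of
`G`. -/
theorem result :
    (∀ (K : Type) [Field K] [NumberField K], Module.finrank ℚ K = 2 → (∃ s : K, s ^ 2 = 5) →
      ∀ f : ℕ → ℕ, LM f → ∀ (G : ℕ → ℝ) (d θ κ : ℝ), Expanding G d → 0 ≤ θ → d * (20 / 37) + θ < 1 →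
      ∃ L : ℕ → ℕ, Tendsto L atTop atTop ∧
        AlmostAll (fun m => ∀ j ≤ L m, ∀ t : 𝓞 K × 𝓞 K × 𝓞 K, Triple t →
          |height t - G (orb f j m)| ≤ (orb f j m : ℝ) ^ θ → κ * height t < rad t)) ∧
    (LM (fun m => m) ∧ LM Nat.totient ∧ LM (fun m => ∑ d ∈ m.divisors, d)) ∧
    ∀ α d : ℝ, 0 < α → 1 ≤ d → Expanding (fun v => α * (v : ℝ) ^ d) d := by
  refine ⟨fun K _ _ hd h5 f hf G d θ κ hG hθ h1 => ?_, ⟨lm_id, lm_totient, lm_sigma⟩,
    fun α d hα hd => expanding_pow hα hd⟩
  obtain ⟨L, hL, h2⟩ := Pool.Agent.N760.IT.orbit_windows (Exc K κ) (fun x => x) hf hG (s := 20 / 37) (by norm_num) hθ h1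
    (fun ε hε => count hd h5 κ ε hε)
  refine ⟨L, hL, almostAll_mono h2 (fun m hm j hj t ht h3 => good_of ht (fun h4 => ?_))⟩
  exact hm j hj (height t) h4 h3

end Pool.Agent.Results.MP_2a5a28_nt.TotientOrbits
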